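import Pool.Agent.P.MP_e4ebbc_al.Rate

set_option autoImplicit false

namespace Pool.Agent.Results.MP_e4ebbc_al.SqrtGap

/-- For every prime `p` and every `m` there is a finite `p`-group all of whose conjugacy classes
have at most `p ^ b` elements, whose nilpotency class is at least `b + m`, and with `b` at most
`8 p^7 (m+1)^2 (log_p m + 1)`. -/
theorem result (p : ℕ) (hp : p.Prime) (m : ℕ) :
    ∃ (G : Type) (_ : Group G) (_ : Finite G) (_ : Group.IsNilpotent G),
      IsPGroup p G ∧ ∃ b : ℕ, (∀ g : G, Nat.card {h : G | IsConj g h} ≤ p ^ b) ∧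
        b + m ≤ Group.nilpotencyClass G ∧ b ≤ 8 * p ^ 7 * (m + 1) ^ 2 * (Nat.log p m + 1) :=
  Pool.Agent.P.MP_e4ebbc_al.exists_rate p hp m

/-- The case `m = 2`: the class-breadth inequality fails for every prime. -/
theorem negation_of_Q1 (p : ℕ) (hp : p.Prime) :
    ∃ (G : Type) (_ : Group G) (_ : Finite G) (_ : Group.IsNilpotent G),
      IsPGroup p G ∧ ∃ b : ℕ, (∀ g : G, Nat.card {h : G | IsConj g h} ≤ p ^ b) ∧
        b + 2 ≤ Group.nilpotencyClass G := by
  obtain ⟨G, i1, i2, i3, h, b, h1, h2, -⟩ := result p hp 2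
  exact ⟨G, i1, i2, i3, h, b, h1, h2⟩

end Pool.Agent.Results.MP_e4ebbc_al.SqrtGap
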